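import Pool.Agent.SLX.Defs

namespace Pool.Agent.SLX

/-- **A4.** The supremum of the supporting functions. Proof. For `P ∈ T` and `(A, v) : E × V` put
`ℓ P (A, v) = f P + fderiv ℝ f P (A - P) + ζ P (v - B A P - B P A + B P P)
   + c * (- b A P - b P A + b P P)`; it is affine in `(A, v)`:
`ℓ P (s • x + t • y) = s * ℓ P x + t * ℓ P y` for `s + t = 1`, and
`ℓ P (X, B X X) + c * b X X = f P + fderiv ℝ f P (X - P) + ζ P (B (X - P) (X - P)) + c * b (X - P) (X - P)`.
For fixed `(A, v)` the numbers `ℓ P (A, v)`, `P ∈ T`, are bounded above (`f`, `fderiv ℝ f` continuous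
on the compact set `T`, `ζ` bounded). `G := fun x => ⨆ P : T, ℓ P x` (`ciSup`) is convex:
`ℓ P (s • x + t • y) ≤ s * G x + t * G y`, then `ciSup_le`. For `X ∈ T`: `≥` from `P = X`
(`le_ciSup`), `≤` from the hypothesis (`ciSup_le`). -/
theorem exists_sup {E V : Type*} [NormedAddCommGroup E] [NormedSpace ℝ E] [FiniteDimensional ℝ E]
    [NormedAddCommGroup V] [NormedSpace ℝ V]
    (B : E →L[ℝ] E →L[ℝ] V) (b : E →L[ℝ] E →L[ℝ] ℝ)
    (f : E → ℝ) (hf : ContDiff ℝ 2 f) (T : Set E) (hT : IsCompact T) (hne : T.Nonempty)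
    (ζ : E → V →L[ℝ] ℝ) (Cζ : ℝ) (hζ : ∀ A ∈ T, ‖ζ A‖ ≤ Cζ) (c : ℝ)
    (H : ∀ A ∈ T, ∀ X ∈ T, ζ A (B (X - A) (X - A)) + c * b (X - A) (X - A) ≤ rem f A X) :
    ∃ G : E × V → ℝ, ConvexOn ℝ Set.univ G ∧ ∀ X ∈ T, G (X, B X X) + c * b X X = f X := by
  classical
  have hTn : Nonempty T := hne.to_subtype
  let l : E → E × V → ℝ := fun P x => f P + fderiv ℝ f P (x.1 - P) +
    ζ P (x.2 - B x.1 P - B P x.1 + B P P) + c * (-b x.1 P - b P x.1 + b P P)
  have haff : ∀ P x y, ∀ s t : ℝ, s + t = 1 → l P (s • x + t • y) = s * l P x + t * l P y := by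
    intro P x y s t hst
    have e1 : (s • x + t • y).1 - P = s • (x.1 - P) + t • (y.1 - P) := by
      rw [Prod.fst_add, Prod.smul_fst, Prod.smul_fst, smul_sub, smul_sub]
      have : P = s • P + t • P := by rw [← add_smul, hst, one_smul]
      nth_rewrite 1 [this]
      abel
    have e2 : (s • x + t • y).2 - B (s • x + t • y).1 P - B P (s • x + t • y).1 + B P P =
        s • (x.2 - B x.1 P - B P x.1 + B P P) + t • (y.2 - B y.1 P - B P y.1 + B P P) := by
      rw [Prod.snd_add, Prod.smul_snd, Prod.smul_snd, Prod.fst_add, Prod.smul_fst, Prod.smul_fst]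
      rw [map_add, map_smul, map_smul, map_add, map_smul, map_smul]
      have h1 : B P P = s • B P P + t • B P P := by rw [← add_smul, hst, one_smul]
      nth_rewrite 1 [h1]
      simp only [add_apply, smul_apply, smul_sub, smul_add]
      abel
    have e3 : -b (s • x + t • y).1 P - b P (s • x + t • y).1 + b P P =
        s * (-b x.1 P - b P x.1 + b P P) + t * (-b y.1 P - b P y.1 + b P P) := by
      rw [Prod.fst_add, Prod.smul_fst, Prod.smul_fst]
      rw [map_add, map_smul, map_smul, map_add, map_smul, map_smul]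
      simp only [add_apply, smul_apply, smul_eq_mul]
      linear_combination (-(b P P)) * hst
    simp only [l]
    rw [e1, e2, e3, map_add, map_smul, map_smul, map_add, map_smul, map_smul]
    simp only [smul_eq_mul]
    linear_combination (-(f P)) * hst
  have hpt : ∀ P X, l P (X, B X X) + c * b X X =
      f P + fderiv ℝ f P (X - P) + ζ P (B (X - P) (X - P)) + c * b (X - P) (X - P) := by
    intro P X
    have e1 : B X X - B X P - B P X + B P P = B (X - P) (X - P) := by
      simp only [map_sub, sub_apply]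
      abel
    have e2 : b (X - P) (X - P) = b X X - b X P - b P X + b P P := by
      simp only [map_sub, sub_apply]
      ring
    simp only [l]
    rw [e1, e2]
    ring
  have hbdd : ∀ x, BddAbove (Set.range fun P : T => l P x) := by
    intro x
    have hc : Continuous fun P : E => f P + fderiv ℝ f P (x.1 - P) +
        Cζ * ‖x.2 - B x.1 P - B P x.1 + B P P‖ + c * (-b x.1 P - b P x.1 + b P P) := by
      have h1 : Continuous (fderiv ℝ f) := hf.continuous_fderiv (by norm_num)
      have h2 : Continuous f := hf.continuous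
      fun_prop
    obtain ⟨M, hM⟩ := hT.bddAbove_image hc.continuousOn
    refine ⟨M, ?_⟩
    rintro _ ⟨P, rfl⟩
    have h3 := hM (Set.mem_image_of_mem _ P.2)
    refine le_trans ?_ h3
    have h4 : ζ P (x.2 - B x.1 P - B P x.1 + B P P) ≤ Cζ * ‖x.2 - B x.1 P - B P x.1 + B (P : E) P‖ :=
      (le_abs_self _).trans ((ContinuousLinearMap.le_opNorm _ _).trans
        (mul_le_mul_of_nonneg_right (hζ P P.2) (norm_nonneg _)))
    simp only [l]
    linarith
  refine ⟨fun x => ⨆ P : T, l P x, ⟨convex_univ, ?_⟩, ?_⟩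
  · intro x _ y _ s t hs ht hst
    apply ciSup_le
    intro P
    rw [haff P x y s t hst]
    exact add_le_add (mul_le_mul_of_nonneg_left (le_ciSup (hbdd x) P) hs)
      (mul_le_mul_of_nonneg_left (le_ciSup (hbdd y) P) ht)
  · intro X hX
    have h1 : (⨆ P : T, l P (X, B X X)) ≤ f X - c * b X X := by
      apply ciSup_le
      intro P
      have h2 := hpt P X
      have h3 := H P P.2 X hX
      rw [rem] at h3
      linarith
    have h4 : f X - c * b X X ≤ ⨆ P : T, l P (X, B X X) := by
      refine le_trans ?_ (le_ciSup (hbdd (X, B X X)) ⟨X, hX⟩)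
      have h2 := hpt X X
      simp only [sub_self, map_zero] at h2
      show f X - c * b X X ≤ l X (X, B X X)
      linarith
    show (⨆ P : T, l P (X, B X X)) + c * b X X = f X
    linarith

end Pool.Agent.SLX
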