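import Pool.Agent.SLX.Defs

namespace Pool.Agent.SLX

open MeasureTheory

/-- the shifted function -/
noncomputable def a5_G {E V : Type*} [NormedAddCommGroup E] [NormedSpace ℝ E]
    [NormedAddCommGroup V] [NormedSpace ℝ V] (B : E →L[ℝ] E →L[ℝ] V) (b : E →L[ℝ] E →L[ℝ] ℝ)
    (G : E × V → ℝ) (c : ℝ) (Y : E) (x : E × V) : ℝ :=
  G (x.1 - Y, x.2 - B x.1 Y - B Y x.1 + B Y Y) + c * (- b x.1 Y - b Y x.1 + b Y Y)

theorem a5_G_eq {E V : Type*} [NormedAddCommGroup E] [NormedSpace ℝ E]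
    [NormedAddCommGroup V] [NormedSpace ℝ V] (B : E →L[ℝ] E →L[ℝ] V) (b : E →L[ℝ] E →L[ℝ] ℝ)
    (G : E × V → ℝ) (c : ℝ) (Y X : E) :
    G (X - Y, B (X - Y) (X - Y)) + c * b (X - Y) (X - Y) =
      a5_G B b G c Y (X, B X X) + c * b X X := by
  unfold a5_G
  have h1 : B (X - Y) (X - Y) = B X X - B X Y - B Y X + B Y Y := by
    simp only [map_sub, sub_apply]
    abel
  have h2 : b (X - Y) (X - Y) = b X X - b X Y - b Y X + b Y Y := by
    simp only [map_sub, sub_apply]
    ring
  rw [h1, h2]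
  ring

theorem a5_G_convex {E V : Type*} [NormedAddCommGroup E] [NormedSpace ℝ E]
    [NormedAddCommGroup V] [NormedSpace ℝ V] (B : E →L[ℝ] E →L[ℝ] V) (b : E →L[ℝ] E →L[ℝ] ℝ)
    (G : E × V → ℝ) (hG : ConvexOn ℝ Set.univ G) (c : ℝ) (Y : E) (x y : E × V) {s t : ℝ}
    (hs : 0 ≤ s) (ht : 0 ≤ t) (hst : s + t = 1) :
    a5_G B b G c Y (s • x + t • y) ≤ s * a5_G B b G c Y x + t * a5_G B b G c Y y := by
  obtain rfl : t = 1 - s := by linarith
  have h1 := hG.2 (Set.mem_univ (x.1 - Y, x.2 - B x.1 Y - B Y x.1 + B Y Y))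
    (Set.mem_univ (y.1 - Y, y.2 - B y.1 Y - B Y y.1 + B Y Y)) hs ht hst
  have h2 : s • (x.1 - Y, x.2 - B x.1 Y - B Y x.1 + B Y Y) +
      (1 - s) • (y.1 - Y, y.2 - B y.1 Y - B Y y.1 + B Y Y) =
      ((s • x + (1 - s) • y).1 - Y, (s • x + (1 - s) • y).2 - B (s • x + (1 - s) • y).1 Y -
        B Y (s • x + (1 - s) • y).1 + B Y Y) := by
    ext
    · simp only [Prod.fst_add, Prod.smul_fst]
      module
    · simp only [Prod.fst_add, Prod.smul_fst, Prod.snd_add, Prod.smul_snd, map_add, map_smul,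
        add_apply, smul_apply]
      module
  rw [h2] at h1
  unfold a5_G
  have h3 : b (s • x + (1 - s) • y).1 Y = s * b x.1 Y + (1 - s) * b y.1 Y := by
    simp only [Prod.fst_add, Prod.smul_fst, map_add, map_smul,
        add_apply, smul_apply, smul_eq_mul]
  have h4 : b Y (s • x + (1 - s) • y).1 = s * b Y x.1 + (1 - s) * b Y y.1 := by
    simp only [Prod.fst_add, Prod.smul_fst, map_add, map_smul, smul_eq_mul]
  rw [h3, h4]
  simp only [smul_eq_mul] at h1
  linarith

theorem a5_G_cont {E V : Type*} [NormedAddCommGroup E] [NormedSpace ℝ E]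
    [NormedAddCommGroup V] [NormedSpace ℝ V] (B : E →L[ℝ] E →L[ℝ] V) (b : E →L[ℝ] E →L[ℝ] ℝ)
    (G : E × V → ℝ) (hG : Continuous G) (c : ℝ) (x : E × V) :
    Continuous (fun Y => a5_G B b G c Y x) := by
  unfold a5_G
  have hB : Continuous fun Y => B Y Y := B.continuous.clm_apply continuous_id
  have hb : Continuous fun Y => b Y Y := b.continuous.clm_apply continuous_id
  have hB1 : Continuous fun Y => B Y x.1 := B.continuous.clm_apply continuous_const
  have hb1 : Continuous fun Y => b Y x.1 := b.continuous.clm_apply continuous_const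
  have hB2 : Continuous fun Y => B x.1 Y := (B x.1).continuous
  have hb2 : Continuous fun Y => b x.1 Y := (b x.1).continuous
  have h1 : Continuous fun Y : E => (x.1 - Y, x.2 - B x.1 Y - B Y x.1 + B Y Y) :=
    (continuous_const.sub continuous_id).prodMk (((continuous_const.sub hB2).sub hB1).add hB)
  exact (hG.comp h1).add (continuous_const.mul ((hb2.neg.sub hb1).add hb))

/-- **A5.** Mollification keeps the structure. Proof. `G` is continuous (`ConvexOn.continuousOn` on
the open set `univ`, finite dimension). With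
`Γ Y (A, v) := G (A - Y, v - B A Y - B Y A + B Y Y) + c * (- b A Y - b Y A + b Y Y)` one has
`G (X - Y, B (X - Y) (X - Y)) + c * b (X - Y) (X - Y) = Γ Y (X, B X X) + c * b X X`, so
`G₁ x := ∫ Y, ρ Y * Γ Y x ∂μ` works (`∫ ρ = 1`): for fixed `Y` the map `Γ Y` is convex (a convex
function composed with an affine map, plus an affine function), `ρ ≥ 0`, and `Y ↦ ρ Y * Γ Y x` is
continuous with compact support, hence integrable; integrate the convexity inequality
(`integral_mono`). -/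
theorem mollify {E V : Type*} [NormedAddCommGroup E] [NormedSpace ℝ E] [FiniteDimensional ℝ E]
    [MeasurableSpace E] [BorelSpace E] (μ : Measure E) [μ.IsAddHaarMeasure]
    [NormedAddCommGroup V] [NormedSpace ℝ V] [FiniteDimensional ℝ V]
    (B : E →L[ℝ] E →L[ℝ] V) (b : E →L[ℝ] E →L[ℝ] ℝ)
    (G : E × V → ℝ) (hG : ConvexOn ℝ Set.univ G) (c : ℝ)
    (ρ : E → ℝ) (hρ : Continuous ρ) (hc : HasCompactSupport ρ) (hnn : ∀ x, 0 ≤ ρ x)
    (hint : ∫ x, ρ x ∂μ = 1) :
    ∃ G₁ : E × V → ℝ, ConvexOn ℝ Set.univ G₁ ∧ ∀ X : E,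
      ∫ Y, ρ Y * (G (X - Y, B (X - Y) (X - Y)) + c * b (X - Y) (X - Y)) ∂μ
        = G₁ (X, B X X) + c * b X X := by
  have hGc : Continuous G := continuousOn_univ.1 (hG.continuousOn isOpen_univ)
  have hint' : ∀ x : E × V, Integrable (fun Y => ρ Y * a5_G B b G c Y x) μ := by
    intro x
    refine Continuous.integrable_of_hasCompactSupport (hρ.mul (a5_G_cont B b G hGc c x)) ?_
    exact hc.mul_right
  refine ⟨fun x => ∫ Y, ρ Y * a5_G B b G c Y x ∂μ, ⟨convex_univ, ?_⟩, fun X => ?_⟩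
  · intro x _ y _ s t hs ht hst
    simp only [smul_eq_mul]
    rw [← integral_const_mul, ← integral_const_mul, ← integral_add ((hint' x).const_mul s)
      ((hint' y).const_mul t)]
    refine integral_mono (hint' _) (((hint' x).const_mul s).add ((hint' y).const_mul t)) (fun Y => ?_)
    have h1 := mul_le_mul_of_nonneg_left (a5_G_convex B b G hG c Y x y hs ht hst) (hnn Y)
    show ρ Y * a5_G B b G c Y (s • x + t • y) ≤ s * (ρ Y * a5_G B b G c Y x) + t * (ρ Y * a5_G B b G c Y y)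
    calc ρ Y * a5_G B b G c Y (s • x + t • y)
        ≤ ρ Y * (s * a5_G B b G c Y x + t * a5_G B b G c Y y) := h1
      _ = s * (ρ Y * a5_G B b G c Y x) + t * (ρ Y * a5_G B b G c Y y) := by ring
  · have hρi : Integrable ρ μ := hρ.integrable_of_hasCompactSupport hc
    have h1 : ∀ Y, ρ Y * (G (X - Y, B (X - Y) (X - Y)) + c * b (X - Y) (X - Y)) =
        ρ Y * a5_G B b G c Y (X, B X X) + ρ Y * (c * b X X) := by
      intro Y
      rw [a5_G_eq, mul_add]
    simp only [h1]
    rw [integral_add (hint' _) (hρi.mul_const _), integral_mul_const, hint, one_mul]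

/-- **A5'.** Mollification of a continuous function is as smooth as the kernel. Proof.
`HasCompactSupport.contDiff_convolution_left` with `L = ContinuousLinearMap.mul ℝ ℝ`
(`MeasureTheory.convolution` unfolds to this integral). -/
theorem mollify_smooth {E : Type*} [NormedAddCommGroup E] [NormedSpace ℝ E] [FiniteDimensional ℝ E]
    [MeasurableSpace E] [BorelSpace E] (μ : Measure E) [μ.IsAddHaarMeasure]
    (ρ : E → ℝ) (hρ : ContDiff ℝ ((⊤ : ℕ∞) : WithTop ℕ∞) ρ) (hc : HasCompactSupport ρ)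
    (φ : E → ℝ) (hφ : Continuous φ) :
    ContDiff ℝ ((⊤ : ℕ∞) : WithTop ℕ∞) (fun X => ∫ Y, ρ Y * φ (X - Y) ∂μ) := by
  have h := hc.contDiff_convolution_left (n := ⊤) (ContinuousLinearMap.mul ℝ ℝ) hρ
    (hφ.locallyIntegrable (μ := μ))
  exact h

end Pool.Agent.SLX
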