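import Pool.Agent.SLX.Defs

namespace Pool.Agent.SLX

private theorem A6_norm0 {E : Type*} [NormedAddCommGroup E] [NormedSpace ℝ E]
    (T : E →L[ℝ] E →L[ℝ] ℝ) (h : T = 0) : ‖T‖ = 0 := by
  subst h
  exact ContinuousLinearMap.opNorm_zero

/-- **A6a.** A `C¹` function whose gradient is monotone is convex. Proof. On the segment from `x` to
`y` the function `h t = φ (x + t (y - x))` has derivative `fderiv ℝ φ (x + t (y - x)) (y - x)`, which
is monotone in `t` by the hypothesis; so `h` is convex on `ℝ` (`MonotoneOn.convexOn_of_deriv` or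
`monotone ... convexOn_univ_of_deriv`), evaluate at `t ∈ [0, 1]`. -/
theorem convexOn_of_monotone_fderiv {E : Type*} [NormedAddCommGroup E] [NormedSpace ℝ E]
    (φ : E → ℝ) (hφ : ContDiff ℝ 1 φ)
    (h : ∀ x y : E, 0 ≤ (fderiv ℝ φ y - fderiv ℝ φ x) (y - x)) : ConvexOn ℝ Set.univ φ := by
  refine ⟨convex_univ, fun x _ y _ a b ha hb hab => ?_⟩
  set g : ℝ → ℝ := fun t => φ (x + t • (y - x)) with hg
  have hline : ∀ t : ℝ, HasDerivAt (fun t : ℝ => x + t • (y - x)) (y - x) t := by
    intro t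
    have := ((hasDerivAt_id t).smul_const (y - x)).const_add x
    simpa using this
  have hder : ∀ t : ℝ, HasDerivAt g (fderiv ℝ φ (x + t • (y - x)) (y - x)) t := fun t =>
    ((hφ.differentiable one_ne_zero).differentiableAt.hasFDerivAt).comp_hasDerivAt t (hline t)
  have hdg : deriv g = fun t => fderiv ℝ φ (x + t • (y - x)) (y - x) :=
    funext fun t => (hder t).deriv
  have hmono : Monotone (deriv g) := by
    rw [hdg]
    intro s t hst
    have h1 := h (x + s • (y - x)) (x + t • (y - x))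
    have e : x + t • (y - x) - (x + s • (y - x)) = (t - s) • (y - x) := by module
    rw [e, map_smul, smul_eq_mul, sub_apply] at h1
    rcases hst.eq_or_lt with rfl | hlt
    · exact le_rfl
    · have h2 := nonneg_of_mul_nonneg_right h1 (sub_pos.2 hlt)
      simp only
      linarith
  have hc := hmono.convexOn_univ_of_deriv (fun t => (hder t).differentiableAt)
  have h2 := hc.2 (Set.mem_univ (0 : ℝ)) (Set.mem_univ (1 : ℝ)) ha hb hab
  have e1 : g (a • (0 : ℝ) + b • (1 : ℝ)) = φ (a • x + b • y) := by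
    simp only [hg]
    congr 1
    have : a = 1 - b := by linarith
    rw [this]
    simp only [smul_eq_mul, mul_zero, zero_add, mul_one]
    module
  have e2 : g 0 = φ x := by simp [hg]
  have e3 : g 1 = φ y := by simp [hg]
  rw [e1, e2, e3] at h2
  exact h2


/-- **A6.** The correction term is harmless. Proof. `k (Y, X) := χ X * (f X - f (X - Y))` is `C²` on
`E × E`; `(Y, X) ↦ fderiv ℝ (fun X => k (Y, X)) X` is `C¹` and
`D (Y, X) := fderiv ℝ (fun X' => fderiv ℝ (fun X => k (Y, X)) X') X` is continuous on `E × E`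
(`ContDiff.fderiv` / `ContDiff.fderiv_right` with parameters, or the chain rule with
`ContinuousLinearMap.inr`). `D (0, X) = 0` since `k (0, ·) = 0`; and `D (Y, X) = 0` for `X` outside
the compact set `tsupport χ`. The set `{‖D‖ < 2 γ}` is open and contains `{0} × tsupport χ`, so by
compactness (generalised tube lemma, `generalized_tube_lemma` or
`IsCompact.exists_...`) there is `ε₀ > 0` with `‖D (Y, X)‖ ≤ 2 γ` for all `‖Y‖ ≤ ε₀` and all `X`. Then
`fderiv ℝ (k (Y, ·))` is `2 γ`-Lipschitz, and for `φ X = γ * b X X + k (Y, X)`: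
`(fderiv ℝ φ y - fderiv ℝ φ x) (y - x) = 2 γ b (y - x) (y - x) + (...)  ≥ 2 γ ‖y - x‖² - 2 γ ‖y - x‖²`
(the derivative of `X ↦ b X X` at `x` is `b x · + b · x`). Apply A6a. -/
theorem small_correction {E : Type*} [NormedAddCommGroup E] [NormedSpace ℝ E]
    [FiniteDimensional ℝ E] (b : E →L[ℝ] E →L[ℝ] ℝ) (hb : ∀ X, ‖X‖ ^ 2 ≤ b X X)
    (χ f : E → ℝ) (hχ : ContDiff ℝ 2 χ) (hχc : HasCompactSupport χ) (hf : ContDiff ℝ 2 f)
    (γ : ℝ) (hγ : 0 < γ) :
    ∃ ε₀ : ℝ, 0 < ε₀ ∧ ∀ Y : E, ‖Y‖ ≤ ε₀ →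
      ConvexOn ℝ Set.univ (fun X => γ * b X X + χ X * (f X - f (X - Y))) := by
  set k : E → E → ℝ := fun Y X => χ X * (f X - f (X - Y)) with hk
  have hk2 : ContDiff ℝ 2 (fun p : E × E => k p.1 p.2) :=
    (hχ.comp contDiff_snd).mul ((hf.comp contDiff_snd).sub
      (hf.comp (contDiff_snd.sub contDiff_fst)))
  set G : E × E → (E →L[ℝ] ℝ) := fun p => fderiv ℝ (k p.1) p.2 with hG
  have hG1 : ContDiff ℝ 1 G := by
    have h1 : ContDiff ℝ 2 (Function.uncurry fun (p : E × E) (X : E) => k p.1 X) :=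
      hk2.comp ((contDiff_fst.comp contDiff_fst).prodMk contDiff_snd)
    exact h1.fderiv contDiff_snd (by norm_num)
  set D : E × E → (E →L[ℝ] E →L[ℝ] ℝ) := fun p => fderiv ℝ (fun X => G (p.1, X)) p.2 with hD
  have hDc : Continuous D := by
    have h1 : ContDiff ℝ 1 (Function.uncurry fun (p : E × E) (X : E) => G (p.1, X)) :=
      hG1.comp ((contDiff_fst.comp contDiff_fst).prodMk contDiff_snd)
    exact (h1.fderiv (n := 0) contDiff_snd (by norm_num)).continuous
  have hG0 : ∀ X, G (0, X) = 0 := by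
    intro X
    have h1 : k 0 = fun _ => (0 : ℝ) := by
      funext X
      simp [hk]
    simp only [hG]
    rw [h1]
    exact fderiv_const_apply _
  have hD0 : ∀ X, D (0, X) = 0 := by
    intro X
    have h1 : (fun X => G ((0 : E), X)) = fun _ => 0 := funext hG0
    simp only [hD]
    rw [h1]
    exact fderiv_const_apply _
  have hDout : ∀ Y X, X ∉ tsupport χ → D (Y, X) = 0 := by
    intro Y X hX
    have hU : IsOpen (tsupport χ)ᶜ := (isClosed_tsupport χ).isOpen_compl
    have hGU : ∀ Z ∈ (tsupport χ)ᶜ, G (Y, Z) = 0 := by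
      intro Z hZ
      have h1 : k Y =ᶠ[nhds Z] fun _ => (0 : ℝ) := by
        filter_upwards [hU.mem_nhds hZ] with W hW
        simp only [hk, image_eq_zero_of_notMem_tsupport hW, zero_mul]
      simp only [hG]
      rw [h1.fderiv_eq]
      exact fderiv_const_apply _
    have h2 : (fun X => G (Y, X)) =ᶠ[nhds X] fun _ => 0 := by
      filter_upwards [hU.mem_nhds hX] with W hW
      exact hGU W hW
    simp only [hD]
    rw [h2.fderiv_eq]
    exact fderiv_const_apply _
  have hnD : Continuous fun p => ‖D p‖ :=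
    (continuous_norm (E := E →L[ℝ] E →L[ℝ] ℝ)).comp hDc
  obtain ⟨u, v, hu, -, hu0, hv, huv⟩ := generalized_tube_lemma (isCompact_singleton (x := (0 : E)))
    hχc (n := {p | ‖D p‖ < 2 * γ}) (isOpen_lt hnD continuous_const) (by
      rintro ⟨Y, X⟩ ⟨hY, -⟩
      rw [Set.mem_singleton_iff] at hY
      simp only at hY
      subst hY
      show ‖D (0, X)‖ < 2 * γ
      rw [A6_norm0 _ (hD0 X)]
      positivity)
  obtain ⟨r, hr, hru⟩ := Metric.isOpen_iff.1 hu 0 (hu0 (Set.mem_singleton _))
  refine ⟨r / 2, by positivity, fun Y hY => ?_⟩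
  have hYu : Y ∈ u := hru (by
    rw [Metric.mem_ball, dist_zero_right]
    linarith)
  have hDb : ∀ X, ‖D (Y, X)‖ ≤ 2 * γ := by
    intro X
    by_cases hX : X ∈ tsupport χ
    · have h1 : (Y, X) ∈ {p | ‖D p‖ < 2 * γ} := huv ⟨hYu, hv hX⟩
      exact le_of_lt h1
    · rw [A6_norm0 _ (hDout Y X hX)]
      positivity
  have hGY : ContDiff ℝ 1 fun X => G (Y, X) := hG1.comp (contDiff_const.prodMk contDiff_id)
  have hlip : ∀ x y, ‖G (Y, y) - G (Y, x)‖ ≤ 2 * γ * ‖y - x‖ := by
    intro x y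
    exact Convex.norm_image_sub_le_of_norm_fderiv_le (𝕜 := ℝ) (s := Set.univ)
      (f := fun X => G (Y, X))
      (fun z _ => (hGY.differentiable one_ne_zero).differentiableAt) (fun z _ => hDb z)
      convex_univ (Set.mem_univ x) (Set.mem_univ y)
  have hkY : ContDiff ℝ 2 (k Y) := hk2.comp (contDiff_const.prodMk contDiff_id)
  have hbc : ContDiff ℝ 2 fun X => b X X := b.contDiff.clm_apply contDiff_id
  have hφ : ContDiff ℝ 1 fun X => γ * b X X + k Y X :=
    ((contDiff_const.mul hbc).add hkY).of_le (by norm_num)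
  have hfd : ∀ x v, fderiv ℝ (fun X => γ * b X X + k Y X) x v =
      γ * (b x v + b v x) + G (Y, x) v := by
    intro x v
    have h1 : HasFDerivAt (fun X => b X X) _ x :=
      (b.hasFDerivAt (x := x)).clm_apply (hasFDerivAt_id x)
    have h2 : HasFDerivAt (k Y) (G (Y, x)) x :=
      (hkY.differentiable two_ne_zero).differentiableAt.hasFDerivAt
    have h3 : HasFDerivAt (fun X => γ * b X X + k Y X) _ x := (h1.const_mul γ).add h2
    rw [h3.fderiv]
    simp
    ring
  refine convexOn_of_monotone_fderiv (fun X => γ * b X X + k Y X) hφ fun x y => ?_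
  rw [sub_apply, hfd, hfd]
  have h1 : |(G (Y, y) - G (Y, x)) (y - x)| ≤ 2 * γ * ‖y - x‖ * ‖y - x‖ :=
    ((G (Y, y) - G (Y, x)).le_opNorm (y - x)).trans
      (mul_le_mul_of_nonneg_right (hlip x y) (norm_nonneg _))
  have h2 := (abs_le.1 h1).1
  rw [sub_apply] at h2
  have h3 := hb (y - x)
  have h4 : b (y - x) (y - x) = b y (y - x) - b x (y - x) := by
    rw [map_sub b y x, sub_apply]
  have h5 : b (y - x) (y - x) = b (y - x) y - b (y - x) x := map_sub _ _ _
  nlinarith


end Pool.Agent.SLX
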