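import Pool.Agent.SLX.A3
import Pool.Agent.SLX.A4
import Pool.Agent.SLX.A5
import Pool.Agent.SLX.A6

namespace Pool.Agent.SLX

open MeasureTheory Pointwise

/-- a smooth cut-off function -/
theorem a7_chi {E : Type*} [NormedAddCommGroup E] [NormedSpace ℝ E] [FiniteDimensional ℝ E]
    (S : Set E) (hS : IsCompact S) (r : ℝ) (hr : 0 < r) :
    ∃ χ : E → ℝ, ContDiff ℝ ((⊤ : ℕ∞) : WithTop ℕ∞) χ ∧ HasCompactSupport χ ∧
      ∀ A ∈ S, ∀ X, ‖X - A‖ < r → χ X = 1 := by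
  have hprop : ProperSpace E := FiniteDimensional.proper ℝ E
  obtain ⟨χ, h1, h2, h3, h4⟩ := exists_contMDiff_support_eq_eq_one_iff
    (modelWithCornersSelf ℝ E) (n := (⊤ : ℕ∞)) (Metric.isOpen_thickening (δ := 2 * r) (E := S))
    (Metric.isClosed_cthickening (δ := r) (E := S))
    (Metric.cthickening_subset_thickening' (by linarith) (by linarith) S)
  refine ⟨χ, contMDiff_iff_contDiff.1 h1, ?_, ?_⟩
  · have hts : tsupport χ ⊆ Metric.cthickening (2 * r) S := by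
      rw [tsupport, h3]
      exact Metric.closure_thickening_subset_cthickening _ _
    exact (hS.cthickening).of_isClosed_subset (isClosed_tsupport _) hts
  · intro A hA X hX
    refine (h4 X).1 (Metric.mem_cthickening_of_dist_le X A r S hA ?_)
    rw [dist_eq_norm]
    exact hX.le

/-- **A7.** The extension theorem. Proof. `tube` gives `δ₁`, `ζ'`; put
`T = S + Metric.closedBall 0 δ₁` (compact, nonempty); `exists_sup` with the constant `c / 2` gives
`G`, `f₀ X := G (X, B X X) + (c/2) b X X = f X` on `T`, `f₀` continuous. Let `χ` be a smooth function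
with compact support inside `S + closedBall 0 (δ₁/2)`, equal to `1` on `S + closedBall 0 (δ₁/4)`
(`exists_contDiff_tsupport_subset` or a mollified indicator, values in `[0,1]` not needed). Take
`ε ≤ δ₁/2`, `ε ≤ ε₀` of `small_correction` (with `γ = c / 4`), `ρ` a normalised smooth bump
(`ContDiffBump.normed`) with support in `closedBall 0 ε`,
`F X := ∫ Y, ρ Y * f₀ (X - Y) ∂μ + ∫ Y, ρ Y * (χ X * (f X - f (X - Y))) ∂μ`.
Smooth: the first term by `mollify_smooth`, the second equals `χ X * f X - χ X * ∫ ρ Y * f (X - Y)`.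
Structure: first term `= G₁ (X, B X X) + (c/2) b X X` (`mollify`); and
`(c/4) b X X + second term = ∫ ρ Y * ((c/4) b X X + χ X (f X - f (X - Y)))` is convex in `X` (integral
of convex functions); so `F X - (c/4) b X X = G₁ (X, B X X) + (convex function of X)`.
Equality: for `X` within `δ₁/4` of a point of `S`: `χ X = 1`, and `X - Y ∈ T` for `Y` in the support
of `ρ`, so `F X = ∫ ρ Y * (f (X - Y) + f X - f (X - Y)) = f X`. -/
theorem extension {E V : Type*} [NormedAddCommGroup E] [NormedSpace ℝ E] [FiniteDimensional ℝ E]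
    [MeasurableSpace E] [BorelSpace E]
    [NormedAddCommGroup V] [NormedSpace ℝ V] [FiniteDimensional ℝ V]
    (B : E →L[ℝ] E →L[ℝ] V) (b : E →L[ℝ] E →L[ℝ] ℝ) (hb : ∀ X, ‖X‖ ^ 2 ≤ b X X)
    (f : E → ℝ) (hf : ContDiff ℝ ((⊤ : ℕ∞) : WithTop ℕ∞) f) (S : Set E) (hS : IsCompact S)
    (hne : S.Nonempty)
    (ζ : E → V →L[ℝ] ℝ) (Cζ : ℝ) (hζ : ∀ A ∈ S, ‖ζ A‖ ≤ Cζ)
    (c δ : ℝ) (hc : 0 < c) (hδ : 0 < δ)
    (H : ∀ A ∈ S, ∀ A₀ ∈ S, ∀ X, ‖X - A₀‖ ≤ δ →
      ζ A (B (X - A) (X - A)) + c * b (X - A) (X - A) ≤ rem f A X) :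
    ∃ F : E → ℝ, ContDiff ℝ ((⊤ : ℕ∞) : WithTop ℕ∞) F ∧
      (∃ δ' : ℝ, 0 < δ' ∧ ∀ A ∈ S, ∀ X, ‖X - A‖ < δ' → F X = f X) ∧
      ∃ γ : ℝ, 0 < γ ∧ ∃ G : E × V → ℝ, ConvexOn ℝ Set.univ G ∧
        ∀ X, F X - γ * b X X = G (X, B X X) := by
  have hprop : ProperSpace E := FiniteDimensional.proper ℝ E
  have hf2 : ContDiff ℝ 2 f := hf.of_le (WithTop.coe_le_coe.2 (le_top : (2 : ℕ∞) ≤ ⊤))
  obtain ⟨δ₁, hδ₁, ζ', hζ', htube⟩ := tube B b hb f hf2 S hS ζ Cζ hζ c δ hc hδ H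
  obtain ⟨T, hT⟩ : ∃ T : Set E, T = S + Metric.closedBall (0 : E) δ₁ := ⟨_, rfl⟩
  have hTc : IsCompact T := by
    rw [hT]
    exact hS.add (isCompact_closedBall _ _)
  have hTm : ∀ X A : E, A ∈ S → ‖X - A‖ ≤ δ₁ → X ∈ T := by
    intro X A hA hX
    rw [hT]
    exact Set.mem_add.2 ⟨A, hA, X - A, by rwa [mem_closedBall_zero_iff], by abel⟩
  have hTe : ∀ X ∈ T, ∃ A ∈ S, ‖X - A‖ ≤ δ₁ := by
    intro X hX
    rw [hT] at hX
    obtain ⟨A, hA, Z, hZ, rfl⟩ := Set.mem_add.1 hX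
    refine ⟨A, hA, ?_⟩
    rw [add_sub_cancel_left]
    rwa [mem_closedBall_zero_iff] at hZ
  have hTne : T.Nonempty := by
    obtain ⟨A, hA⟩ := hne
    exact ⟨A, hTm A A hA (by rw [sub_self, norm_zero]; exact hδ₁.le)⟩
  obtain ⟨G, hG, hGf⟩ := exists_sup B b f hf2 T hTc hTne ζ' (max Cζ 0) (fun A _ => hζ' A) (c / 2)
    (by
      intro A hA X hX
      obtain ⟨A₀, hA₀, hAA₀⟩ := hTe A hA
      obtain ⟨X₀, hX₀, hXX₀⟩ := hTe X hX
      exact htube A A₀ X X₀ hA₀ hX₀ hAA₀ hXX₀)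
  have hGc : Continuous G := by
    rw [← continuousOn_univ]
    exact hG.continuousOn isOpen_univ
  have hBc : Continuous (fun X : E => B X X) := B.continuous.clm_apply continuous_id
  have hbc : Continuous (fun X : E => b X X) := b.continuous.clm_apply continuous_id
  have hf₀ : Continuous (fun X : E => G (X, B X X) + c / 2 * b X X) :=
    (hGc.comp (continuous_id.prodMk hBc)).add (continuous_const.mul hbc)
  obtain ⟨χ, hχ, hχc, hχ1⟩ := a7_chi S hS (δ₁ / 4) (by linarith)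
  have hχ2 : ContDiff ℝ 2 χ := hχ.of_le (WithTop.coe_le_coe.2 (le_top : (2 : ℕ∞) ≤ ⊤))
  obtain ⟨ε₀, hε₀, hsm⟩ := small_correction b hb χ f hχ2 hχc hf2 (c / 4) (by linarith)
  obtain ⟨ε, hε⟩ : ∃ ε : ℝ, ε = min ε₀ (δ₁ / 2) := ⟨_, rfl⟩
  have hεpos : 0 < ε := by
    rw [hε]
    exact lt_min hε₀ (by linarith)
  have hεε₀ : ε ≤ ε₀ := by rw [hε]; exact min_le_left _ _
  have hεδ₁ : ε ≤ δ₁ / 2 := by rw [hε]; exact min_le_right _ _
  let μ : Measure E := Measure.addHaar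
  let β : ContDiffBump (0 : E) := ⟨ε / 2, ε, by linarith, by linarith⟩
  obtain ⟨ρ, hρd⟩ : ∃ ρ : E → ℝ, ρ = β.normed μ := ⟨_, rfl⟩
  have hρ : ContDiff ℝ ((⊤ : ℕ∞) : WithTop ℕ∞) ρ := by rw [hρd]; exact β.contDiff_normed
  have hρc : HasCompactSupport ρ := by rw [hρd]; exact β.hasCompactSupport_normed
  have hρ0 : ∀ x, 0 ≤ ρ x := by rw [hρd]; exact fun x => β.nonneg_normed x
  have hρ1 : ∫ x, ρ x ∂μ = 1 := by rw [hρd]; exact β.integral_normed
  have hρs : ∀ Y, ρ Y ≠ 0 → ‖Y‖ < ε := by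
    intro Y hY
    have h1 : Y ∈ Function.support (β.normed μ) := by rw [← hρd]; exact hY
    rw [β.support_normed_eq, mem_ball_zero_iff] at h1
    exact h1
  -- integrability
  have hint : ∀ (g : E → ℝ), Continuous g → Integrable (fun Y => ρ Y * g Y) μ := by
    intro g hg
    exact (hρ.continuous.mul hg).integrable_of_hasCompactSupport hρc.mul_right
  obtain ⟨G₁, hG₁, hG₁e⟩ := mollify μ B b G hG (c / 2) ρ hρ.continuous hρc hρ0 hρ1
  obtain ⟨φ, hφ⟩ : ∃ φ : E → ℝ, φ = fun X => c / 4 * b X X +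
      (χ X * f X - χ X * ∫ Y, ρ Y * f (X - Y) ∂μ) := ⟨_, rfl⟩
  have hφe : ∀ X, φ X = ∫ Y, ρ Y * (c / 4 * b X X + χ X * (f X - f (X - Y))) ∂μ := by
    intro X
    have e : (fun Y => ρ Y * (c / 4 * b X X + χ X * (f X - f (X - Y)))) =
        fun Y => ρ Y * (c / 4 * b X X + χ X * f X) - χ X * (ρ Y * f (X - Y)) := by
      funext Y
      ring
    have i1 : Integrable (fun Y => ρ Y * (c / 4 * b X X + χ X * f X)) μ :=
      hint _ continuous_const
    have i2 : Integrable (fun Y => χ X * (ρ Y * f (X - Y))) μ :=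
      (hint (fun Y => f (X - Y)) (hf.continuous.comp (continuous_const.sub continuous_id))).const_mul _
    rw [e, integral_sub i1 i2, integral_mul_const, hρ1, integral_const_mul, hφ]
    ring
  have hφc : ConvexOn ℝ Set.univ φ := by
    refine ⟨convex_univ, ?_⟩
    intro x _ y _ s t hs ht hst
    have hk : ∀ X, Integrable (fun Y => ρ Y * (c / 4 * b X X + χ X * (f X - f (X - Y)))) μ := by
      intro X
      exact hint _ (continuous_const.add (continuous_const.mul (continuous_const.sub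
        (hf.continuous.comp (continuous_const.sub continuous_id)))))
    rw [hφe, hφe, hφe, smul_eq_mul, smul_eq_mul, ← integral_const_mul, ← integral_const_mul,
      ← integral_add ((hk x).const_mul s) ((hk y).const_mul t)]
    refine integral_mono (hk _) (((hk x).const_mul s).add ((hk y).const_mul t)) ?_
    intro Y
    show ρ Y * (c / 4 * b (s • x + t • y) (s • x + t • y) + χ (s • x + t • y) *
      (f (s • x + t • y) - f (s • x + t • y - Y))) ≤
      s * (ρ Y * (c / 4 * b x x + χ x * (f x - f (x - Y)))) +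
      t * (ρ Y * (c / 4 * b y y + χ y * (f y - f (y - Y))))
    by_cases hY : ρ Y = 0
    · rw [hY]
      simp
    · have h1 := (hsm Y ((hρs Y hY).le.trans hεε₀)).2 (Set.mem_univ x) (Set.mem_univ y) hs ht hst
      simp only [smul_eq_mul] at h1
      have h2 := mul_le_mul_of_nonneg_left h1 (hρ0 Y)
      calc _ ≤ _ := h2
        _ = _ := by ring
  refine ⟨fun X => (∫ Y, ρ Y * (G (X - Y, B (X - Y) (X - Y)) + c / 2 * b (X - Y) (X - Y)) ∂μ) +
    (χ X * f X - χ X * ∫ Y, ρ Y * f (X - Y) ∂μ), ?_, ⟨δ₁ / 4, by linarith, ?_⟩,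
    c / 4, by linarith, fun p => G₁ p + φ p.1, ?_, ?_⟩
  · have s1 := mollify_smooth μ ρ hρ hρc (fun X : E => G (X, B X X) + c / 2 * b X X) hf₀
    have s2 := mollify_smooth μ ρ hρ hρc f hf.continuous
    exact s1.add ((hχ.mul hf).sub (hχ.mul s2))
  · intro A hA X hX
    have hχX := hχ1 A hA X hX
    have e : ∫ Y, ρ Y * (G (X - Y, B (X - Y) (X - Y)) + c / 2 * b (X - Y) (X - Y)) ∂μ =
        ∫ Y, ρ Y * f (X - Y) ∂μ := by
      congr 1
      funext Y
      by_cases hY : ρ Y = 0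
      · rw [hY, zero_mul, zero_mul]
      · have hYs := hρs Y hY
        have hm : X - Y ∈ T := by
          refine hTm (X - Y) A hA ?_
          have e1 : X - Y - A = (X - A) - Y := by abel
          rw [e1]
          have := norm_sub_le (X - A) Y
          linarith
        rw [hGf _ hm]
    show (∫ Y, ρ Y * (G (X - Y, B (X - Y) (X - Y)) + c / 2 * b (X - Y) (X - Y)) ∂μ) +
      (χ X * f X - χ X * ∫ Y, ρ Y * f (X - Y) ∂μ) = f X
    rw [e, hχX]
    ring
  · refine ⟨convex_univ, ?_⟩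
    intro x _ y _ s t hs ht hst
    have h1 := hG₁.2 (Set.mem_univ x) (Set.mem_univ y) hs ht hst
    have h2 := hφc.2 (Set.mem_univ x.1) (Set.mem_univ y.1) hs ht hst
    simp only [smul_eq_mul] at h1 h2
    show G₁ (s • x + t • y) + φ ((s • x + t • y).1) ≤ s * (G₁ x + φ x.1) + t * (G₁ y + φ y.1)
    have e : (s • x + t • y).1 = s • x.1 + t • y.1 := rfl
    rw [e]
    linarith
  · intro X
    show (∫ Y, ρ Y * (G (X - Y, B (X - Y) (X - Y)) + c / 2 * b (X - Y) (X - Y)) ∂μ) +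
      (χ X * f X - χ X * ∫ Y, ρ Y * f (X - Y) ∂μ) - c / 4 * b X X = G₁ (X, B X X) + φ X
    rw [hG₁e, hφ]
    ring

end Pool.Agent.SLX
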