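import Pool.Agent.SLX.A2

namespace Pool.Agent.SLX

theorem b1_quad {c M K L p n : ℝ} (hL : L * c = 2 * K + 2) (hK : 0 ≤ K) :
    L * (-c * p ^ 2 + M * (2 * (p * n) + n ^ 2)) + K * (p + n) ^ 2 ≤
      - p ^ 2 + ((L * M) ^ 2 + L * M + 2 * K) * n ^ 2 := by
  have h1 : K * (p + n) ^ 2 ≤ 2 * K * p ^ 2 + 2 * K * n ^ 2 := by
    nlinarith [mul_nonneg hK (sq_nonneg (p - n))]
  have h2 : 2 * (L * M) * (p * n) ≤ p ^ 2 + (L * M) ^ 2 * n ^ 2 := by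
    nlinarith [sq_nonneg (p - L * M * n)]
  have h3 : L * (-c * p ^ 2 + M * (2 * (p * n) + n ^ 2)) =
      -(2 * K + 2) * p ^ 2 + 2 * (L * M) * (p * n) + L * M * n ^ 2 := by
    rw [← hL]
    ring
  linarith

theorem b1_rem {E : Type*} [NormedAddCommGroup E] [NormedSpace ℝ E] {f W : E → ℝ}
    (hf : ContDiff ℝ 2 f) (hW : ContDiff ℝ 2 W) (hW0 : ∀ X, 0 ≤ W X) {A : E} (hA : W A = 0)
    (Λ : ℝ) (X : E) : rem (fun Y => f Y + Λ * W Y) A X = rem f A X + Λ * W X := by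
  have hfd : DifferentiableAt ℝ f A := hf.differentiable (by norm_num) A
  have hWd : DifferentiableAt ℝ W A := hW.differentiable (by norm_num) A
  have hmin : fderiv ℝ W A = 0 := by
    apply IsLocalMin.fderiv_eq_zero
    exact Filter.Eventually.of_forall fun Y => by
      rw [hA]
      exact hW0 Y
  have h1 : fderiv ℝ (fun Y => f Y + Λ * W Y) A = fderiv ℝ f A := by
    rw [fderiv_fun_add hfd (hWd.const_mul Λ), fderiv_const_mul hWd, hmin, smul_zero, add_zero]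
  unfold rem
  rw [h1]
  show f X + Λ * W X - (f A + Λ * W A) - fderiv ℝ f A (X - A) =
    f X - f A - fderiv ℝ f A (X - A) + Λ * W X
  rw [hA]
  ring

theorem b1_core {E V : Type*} [NormedAddCommGroup E] [NormedSpace ℝ E]
    [NormedAddCommGroup V] [NormedSpace ℝ V]
    (B : E →L[ℝ] E →L[ℝ] V) (b : E →L[ℝ] E →L[ℝ] ℝ) {ω : V →L[ℝ] ℝ} {Cω c C L r : ℝ}
    (hω : ‖ω‖ ≤ Cω) (hL0 : 0 ≤ L) {A A₁ X : E} (hC : 0 ≤ C)
    (hL : L * c = 2 * (C + ‖b‖ / 2) + 2)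
    (hΩ : ω (B (A₁ - A) (A₁ - A)) ≤ -c * ‖A₁ - A‖ ^ 2) (hr : |r| ≤ C * ‖X - A‖ ^ 2) :
    L * ω (B (X - A) (X - A)) + 1 / 2 * b (X - A) (X - A) - r ≤
      - ‖A₁ - A‖ ^ 2 + ((L * (Cω * ‖B‖)) ^ 2 + L * (Cω * ‖B‖) + 2 * (C + ‖b‖ / 2)) *
        ‖X - A₁‖ ^ 2 := by
  set P : E := A₁ - A with hP
  set N : E := X - A₁ with hN
  have hX : X - A = P + N := by
    rw [hP, hN]
    abel
  have hCω : 0 ≤ Cω := (norm_nonneg _).trans hω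
  have hBb : ∀ Y Z : E, |ω (B Y Z)| ≤ Cω * ‖B‖ * (‖Y‖ * ‖Z‖) := by
    intro Y Z
    have h1 := ω.le_opNorm (B Y Z)
    have h2 := B.le_opNorm₂ Y Z
    rw [Real.norm_eq_abs] at h1
    calc |ω (B Y Z)| ≤ ‖ω‖ * ‖B Y Z‖ := h1
      _ ≤ Cω * (‖B‖ * ‖Y‖ * ‖Z‖) := mul_le_mul hω h2 (norm_nonneg _) hCω
      _ = Cω * ‖B‖ * (‖Y‖ * ‖Z‖) := by ring
  have hpn : ‖X - A‖ ≤ ‖P‖ + ‖N‖ := by
    rw [hX]
    exact norm_add_le _ _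
  have hpn2 : ‖X - A‖ ^ 2 ≤ (‖P‖ + ‖N‖) ^ 2 := pow_le_pow_left₀ (norm_nonneg _) hpn 2
  have h1 : ω (B (X - A) (X - A)) ≤ -c * ‖P‖ ^ 2 + Cω * ‖B‖ * (2 * (‖P‖ * ‖N‖) + ‖N‖ ^ 2) := by
    have h2 : ω (B (X - A) (X - A)) = ω (B P P) + ω (B P N) + ω (B N P) + ω (B N N) := by
      rw [hX]
      simp only [map_add, add_apply]
      ring
    have h3 := le_of_abs_le (hBb P N)
    have h4 := le_of_abs_le (hBb N P)
    have h5 := le_of_abs_le (hBb N N)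
    rw [h2]
    nlinarith
  have h6 : b (X - A) (X - A) ≤ ‖b‖ * ‖X - A‖ ^ 2 := by
    have h7 := b.le_opNorm₂ (X - A) (X - A)
    calc b (X - A) (X - A) ≤ ‖b (X - A) (X - A)‖ := Real.le_norm_self _
      _ ≤ ‖b‖ * ‖X - A‖ * ‖X - A‖ := h7
      _ = ‖b‖ * ‖X - A‖ ^ 2 := by ring
  have h8 : -r ≤ C * ‖X - A‖ ^ 2 := (neg_le_abs r).trans hr
  have hK : 0 ≤ C + ‖b‖ / 2 := by positivity
  have h9 : (C + ‖b‖ / 2) * ‖X - A‖ ^ 2 ≤ (C + ‖b‖ / 2) * (‖P‖ + ‖N‖) ^ 2 :=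
    mul_le_mul_of_nonneg_left hpn2 hK
  have h10 := b1_quad (M := Cω * ‖B‖) (p := ‖P‖) (n := ‖N‖) hL hK
  have h11 := mul_le_mul_of_nonneg_left h1 hL0
  nlinarith

/-- **B1.** From the chord condition on `S` to the hypothesis of the extension theorem.
Proof. All of `S` lies in a ball; `R` = its radius `+ r₀ + 1`. `C` = constant of `taylor_bound` for
`f` on the ball `R`; `Cb`, `CB` = norms of `b`, `B`. Core bases `A ∈ Sc`: put `ζ A := Λ₁ • ω A` with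
`Λ₁ c ≥ C + 4 Cb + 4` (`C` for all `b`-terms as well). Let `X` be within `δ ≤ min r₀ 1` of
`A₀' ∈ S`.
Case 1, `‖X - A'‖ ≤ r₀` for some `A' ∈ Sc`: `A₀ ∈ S` with `w₀ ‖X - A₀‖² ≤ W X`. With
`P = A₀ - A`, `N = X - A₀`, `X - A = P + N`, `rem (f + Λ W) A X = rem f A X + Λ W X` (`W A = 0` and
`fderiv ℝ W A = 0` because `W ≥ 0 = W A`):
`rem f A X + Λ W X - Λ₁ ω A (B (P + N) (P + N)) - b (P + N) (P + N)
  ≥ -(C + Cb) ‖P + N‖² + Λ w₀ ‖N‖² + Λ₁ c ‖P‖² - Λ₁ Cω CB (2 ‖P‖ ‖N‖ + ‖N‖²)`, which is `≥ 0` if `Λ` is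
large (depending on `Λ₁`): `2 ‖P‖ ‖N‖ ≤ η ‖P‖² + ‖N‖² / η`.
Case 2, `‖X - A'‖ > r₀` for all `A' ∈ Sc`, in particular `‖X - A‖ > r₀`: use `A₀'` instead of `A₀`,
`‖N‖ ≤ δ`, and `W ≥ 0`: `Λ₁ c ‖P‖² - (C + Cb) (‖P‖ + ‖N‖)² - Λ₁ Cω CB (2 ‖P‖ ‖N‖ + ‖N‖²) ≥ 0` for `δ`
small since `‖P‖ ≥ r₀ - δ`, `‖P‖ ≤ 2 R`.
Tail bases `A ∈ S \ Sc`: `ζ A := 0`: `rem (f + Λ W) A X ≥ (1/2) b (X - A) (X - A)` for all `X`
because `f + Λ W ≥ (1/2) b X X` (`Λ ≥ Λ₀`, `W ≥ 0`), with the same value and derivative at `A`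
(`fderiv` of `X ↦ b X X / 2` at `A` is `b A ·` by symmetry). -/
theorem cond_c {E V : Type*} [NormedAddCommGroup E] [NormedSpace ℝ E] [FiniteDimensional ℝ E]
    [NormedAddCommGroup V] [NormedSpace ℝ V]
    (B : E →L[ℝ] E →L[ℝ] V) (b : E →L[ℝ] E →L[ℝ] ℝ) (hb : ∀ X, ‖X‖ ^ 2 ≤ b X X)
    (hsym : ∀ X Y, b X Y = b Y X)
    (f W : E → ℝ) (hf : ContDiff ℝ 2 f) (hW : ContDiff ℝ 2 W) (hW0 : ∀ X, 0 ≤ W X)
    (S Sc : Set E) (hS : IsCompact S) (hSc : Sc ⊆ S) (hWS : ∀ X ∈ S, W X = 0)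
    (ω : E → V →L[ℝ] ℝ) (Cω c : ℝ) (hω : ∀ A ∈ Sc, ‖ω A‖ ≤ Cω) (hc : 0 < c)
    (hΩ : ∀ A ∈ Sc, ∀ X ∈ S, ω A (B (X - A) (X - A)) ≤ -c * ‖X - A‖ ^ 2)
    (w₀ r₀ : ℝ) (hw₀ : 0 < w₀) (hr₀ : 0 < r₀)
    (hWn : ∀ A ∈ Sc, ∀ X, ‖X - A‖ ≤ r₀ → ∃ A₀ ∈ S, w₀ * ‖X - A₀‖ ^ 2 ≤ W X)
    (Λ₀ : ℝ) (hΛ₀ : ∀ X, b X X / 2 ≤ f X + Λ₀ * W X)
    (hval : ∀ A ∈ S, A ∉ Sc → f A = b A A / 2 ∧ ∀ H, fderiv ℝ f A H = b A H) :
    ∃ (Λ : ℝ) (ζ : E → V →L[ℝ] ℝ) (Cζ c' δ : ℝ), 0 < c' ∧ 0 < δ ∧ (∀ A ∈ S, ‖ζ A‖ ≤ Cζ) ∧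
      ∀ A ∈ S, ∀ A₀ ∈ S, ∀ X, ‖X - A₀‖ ≤ δ →
        ζ A (B (X - A) (X - A)) + c' * b (X - A) (X - A) ≤ rem (fun Y => f Y + Λ * W Y) A X := by
  classical
  obtain ⟨R0, hR0⟩ := hS.isBounded.exists_norm_le
  obtain ⟨C, hC0, hC⟩ := taylor_bound f hf (R0 + 1)
  set Cω' : ℝ := |Cω| with hCω'
  have hCω0 : 0 ≤ Cω' := abs_nonneg _
  set L : ℝ := (2 * (C + ‖b‖ / 2) + 2) / c with hLdef
  have hL0 : 0 ≤ L := by positivity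
  have hL : L * c = 2 * (C + ‖b‖ / 2) + 2 := div_mul_cancel₀ _ hc.ne'
  set D : ℝ := (L * (Cω' * ‖B‖)) ^ 2 + L * (Cω' * ‖B‖) + 2 * (C + ‖b‖ / 2) with hD
  have hD0 : 0 ≤ D := by positivity
  set Λ : ℝ := max Λ₀ (D / w₀) with hΛ
  have hΛ1 : Λ₀ ≤ Λ := le_max_left _ _
  have hΛ2 : D / w₀ ≤ Λ := le_max_right _ _
  have hΛ3 : 0 ≤ Λ := (div_nonneg hD0 hw₀.le).trans hΛ2
  set δ : ℝ := min 1 (min (r₀ / 2) (r₀ / (2 * (D + 1)))) with hδ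
  have hδ0 : 0 < δ := by
    have h1 : 0 < r₀ / (2 * (D + 1)) := by positivity
    exact lt_min one_pos (lt_min (by positivity) h1)
  have hδ1 : δ ≤ 1 := min_le_left _ _
  have hδ2 : δ ≤ r₀ / 2 := (min_le_right _ _).trans (min_le_left _ _)
  have hδ3 : δ ≤ r₀ / (2 * (D + 1)) := (min_le_right _ _).trans (min_le_right _ _)
  have hδ4 : D * δ ^ 2 ≤ (r₀ / 2) ^ 2 := by
    have h1 : δ * (D + 1) ≤ r₀ / 2 := by
      calc δ * (D + 1) ≤ r₀ / (2 * (D + 1)) * (D + 1) := mul_le_mul_of_nonneg_right hδ3 (by linarith)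
        _ = r₀ / 2 := by field_simp
    have h2 : (δ * (D + 1)) ^ 2 ≤ (r₀ / 2) ^ 2 :=
      pow_le_pow_left₀ (mul_nonneg hδ0.le (by linarith)) h1 2
    have h3 : D * δ ^ 2 ≤ (δ * (D + 1)) ^ 2 := by
      have h4 : D ≤ (D + 1) ^ 2 := by nlinarith
      calc D * δ ^ 2 ≤ (D + 1) ^ 2 * δ ^ 2 := mul_le_mul_of_nonneg_right h4 (sq_nonneg _)
        _ = (δ * (D + 1)) ^ 2 := by ring
    exact h3.trans h2
  refine ⟨Λ, fun A => if A ∈ Sc then L • ω A else 0, L * Cω', 1 / 2, δ, by norm_num, hδ0, ?_, ?_⟩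
  · intro A _
    show ‖(if A ∈ Sc then L • ω A else 0 : V →L[ℝ] ℝ)‖ ≤ L * Cω'
    split_ifs with hA
    · rw [norm_smul, Real.norm_of_nonneg hL0]
      exact mul_le_mul_of_nonneg_left ((hω A hA).trans (le_abs_self _)) hL0
    · rw [norm_zero]
      positivity
  · intro A hA A₀ hA₀ X hX
    rw [b1_rem hf hW hW0 (hWS A hA) Λ X]
    show (if A ∈ Sc then L • ω A else 0 : V →L[ℝ] ℝ) (B (X - A) (X - A)) +
      1 / 2 * b (X - A) (X - A) ≤ rem f A X + Λ * W X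
    by_cases hAc : A ∈ Sc
    · rw [if_pos hAc]
      have hXR : ‖X‖ ≤ R0 + 1 := by
        calc ‖X‖ = ‖(X - A₀) + A₀‖ := by rw [sub_add_cancel]
          _ ≤ ‖X - A₀‖ + ‖A₀‖ := norm_add_le _ _
          _ ≤ R0 + 1 := by linarith [hR0 A₀ hA₀]
      have hAR : ‖A‖ ≤ R0 + 1 := by linarith [hR0 A hA]
      have hrem := hC A X hAR hXR
      have hωA : ‖ω A‖ ≤ Cω' := (hω A hAc).trans (le_abs_self _)
      have key : ∀ A₁ ∈ S, L * ω A (B (X - A) (X - A)) + 1 / 2 * b (X - A) (X - A) - rem f A X ≤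
          - ‖A₁ - A‖ ^ 2 + D * ‖X - A₁‖ ^ 2 := fun A₁ hA₁ =>
        b1_core B b hωA hL0 hC0 hL (hΩ A hAc A₁ hA₁) hrem
      have hsm : (L • ω A : V →L[ℝ] ℝ) (B (X - A) (X - A)) = L * ω A (B (X - A) (X - A)) := rfl
      rw [hsm]
      by_cases hcase : ∃ A' ∈ Sc, ‖X - A'‖ ≤ r₀
      · obtain ⟨A', hA', hXA'⟩ := hcase
        obtain ⟨A₁, hA₁, hw⟩ := hWn A' hA' X hXA'
        have h1 := key A₁ hA₁
        have h2 : D * ‖X - A₁‖ ^ 2 ≤ Λ * W X := by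
          calc D * ‖X - A₁‖ ^ 2 = D / w₀ * (w₀ * ‖X - A₁‖ ^ 2) := by field_simp
            _ ≤ Λ * W X := mul_le_mul hΛ2 hw (by positivity) hΛ3
        nlinarith [sq_nonneg ‖A₁ - A‖]
      · push Not at hcase
        have h1 := key A₀ hA₀
        have h2 := hcase A hAc
        have h3 : r₀ / 2 ≤ ‖A₀ - A‖ := by
          have h4 : ‖X - A‖ ≤ ‖X - A₀‖ + ‖A₀ - A‖ := by
            calc ‖X - A‖ = ‖(X - A₀) + (A₀ - A)‖ := by rw [sub_add_sub_cancel]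
              _ ≤ _ := norm_add_le _ _
          linarith
        have h5 : (r₀ / 2) ^ 2 ≤ ‖A₀ - A‖ ^ 2 := pow_le_pow_left₀ (by positivity) h3 2
        have h6 : D * ‖X - A₀‖ ^ 2 ≤ D * δ ^ 2 :=
          mul_le_mul_of_nonneg_left (pow_le_pow_left₀ (norm_nonneg _) hX 2) hD0
        have h7 : 0 ≤ Λ * W X := mul_nonneg hΛ3 (hW0 X)
        linarith
    · rw [if_neg hAc]
      obtain ⟨hv1, hv2⟩ := hval A hA hAc
      have h1 : b X X / 2 ≤ f X + Λ * W X :=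
        (hΛ₀ X).trans (by linarith [mul_le_mul_of_nonneg_right hΛ1 (hW0 X)])
      have h2 : b (X - A) (X - A) = b X X - 2 * b A X + b A A := by
        simp only [map_sub, sub_apply]
        rw [hsym X A]
        ring
      have h3 : b A (X - A) = b A X - b A A := map_sub _ _ _
      unfold rem
      rw [hv1, hv2, h3, h2]
      show (0 : ℝ) + _ ≤ _
      linarith

end Pool.Agent.SLX
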