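import Pool.Agent.SLX.Defs

namespace Pool.Agent.SLX

/-- **A1.** The Taylor remainder varies little, relative to `‖H‖²`, under translations.
Proof. `G := fderiv ℝ f` is `C¹` (`ContDiff.fderiv_right`), its derivative `fderiv ℝ G` is continuous,
hence uniformly continuous on the compact ball of radius `2 R` (`ProperSpace` from finite
dimension): choose `δ` with `‖fderiv ℝ G z - fderiv ℝ G z'‖ ≤ ε` for `‖z - z'‖ ≤ δ`, `z, z'` in the
ball. Fix `x, x', H`. `Θ K := G (x + K) - G (x' + K)` has derivative of norm `≤ ε` on the ball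
`‖K‖ ≤ ‖H‖`, so `‖Θ K - Θ 0‖ ≤ ε ‖K‖ ≤ ε ‖H‖`
(`Convex.norm_image_sub_le_of_norm_hasFDerivWithin_le`). Then `ψ K := f (x + K) - f (x' + K) - Θ 0 K`
has derivative `Θ K - Θ 0` of norm `≤ ε ‖H‖` there, so `|ψ H - ψ 0| ≤ ε ‖H‖ * ‖H‖`, and
`ψ H - ψ 0` is exactly the difference of the two remainders. -/
theorem taylor_diff {E : Type*} [NormedAddCommGroup E] [NormedSpace ℝ E] [FiniteDimensional ℝ E]
    (f : E → ℝ) (hf : ContDiff ℝ 2 f) (R ε : ℝ) (hε : 0 < ε) :
    ∃ δ : ℝ, 0 < δ ∧ ∀ x x' H : E, ‖x‖ ≤ R → ‖x'‖ ≤ R → ‖H‖ ≤ R → ‖x - x'‖ ≤ δ →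
      |rem f x (x + H) - rem f x' (x' + H)| ≤ ε * ‖H‖ ^ 2 := by
  have hprop : ProperSpace E := FiniteDimensional.proper ℝ E
  have hF : ContDiff ℝ 1 (fun p : E × E => fderiv ℝ f p.1 p.2) :=
    ((hf.fderiv_right (m := 1) (by norm_num)).comp contDiff_fst).clm_apply contDiff_snd
  obtain ⟨Q, hQd⟩ : ∃ Q : E × E → ℝ, Q = fun p : E × E =>
      fderiv ℝ (fun p : E × E => fderiv ℝ f p.1 p.2) p (p.2, 0) := ⟨_, rfl⟩
  have hQ : Continuous Q := by
    rw [hQd]
    exact (hF.continuous_fderiv (by norm_num)).clm_apply (continuous_snd.prodMk continuous_const)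
  have huc : UniformContinuousOn Q
      (Metric.closedBall (0 : E) (2 * R) ×ˢ Metric.closedBall (0 : E) 1) :=
    ((isCompact_closedBall (0 : E) (2 * R)).prod
      (isCompact_closedBall (0 : E) 1)).uniformContinuousOn_of_continuous hQ.continuousOn
  obtain ⟨δ, hδ, hδ0⟩ := Metric.uniformContinuousOn_iff_le.1 huc ε hε
  refine ⟨δ, hδ, fun x x' H hx hx' hH hxx' => ?_⟩
  by_cases hH0 : H = 0
  · subst hH0
    simp [rem]
  have hpos : 0 < ‖H‖ := norm_pos_iff.2 hH0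
  obtain ⟨u, hu⟩ : ∃ u : E, u = ‖H‖⁻¹ • H := ⟨_, rfl⟩
  have hHu : ‖H‖ • u = H := by
    rw [hu, smul_smul, mul_inv_cancel₀ hpos.ne', one_smul]
  have hu1 : ‖u‖ = 1 := by
    rw [hu, norm_smul, norm_inv, norm_norm, inv_mul_cancel₀ hpos.ne']
  have hlin : ∀ (y : E) (t : ℝ), HasDerivAt (fun t : ℝ => y + t • u) u t := by
    intro y t
    have h1 := ((hasDerivAt_id t).smul_const u).const_add y
    rwa [one_smul] at h1
  have hd1 : ∀ (y : E) (t : ℝ), HasDerivAt (fun t : ℝ => f (y + t • u))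
      (fderiv ℝ f (y + t • u) u) t := fun y t =>
    ((hf.differentiable (by norm_num) (y + t • u)).hasFDerivAt).comp_hasDerivAt t (hlin y t)
  have hd2 : ∀ (y : E) (t : ℝ), HasDerivAt (fun t : ℝ => fderiv ℝ f (y + t • u) u)
      (Q (y + t • u, u)) t := by
    intro y t
    have h1 : HasDerivAt (fun t : ℝ => ((y + t • u, u) : E × E)) (u, 0) t :=
      (hlin y t).prodMk (hasDerivAt_const t u)
    have h2 := ((hF.differentiable (by norm_num) (y + t • u, u)).hasFDerivAt).comp_hasDerivAt t h1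
    rw [hQd]
    exact h2
  have hcv : Convex ℝ (Set.Icc 0 ‖H‖) := convex_Icc _ _
  have h0 : (0 : ℝ) ∈ Set.Icc 0 ‖H‖ := ⟨le_refl _, hpos.le⟩
  have hHm : ‖H‖ ∈ Set.Icc 0 ‖H‖ := ⟨hpos.le, le_refl _⟩
  have hball : ∀ (y : E) (t : ℝ), ‖y‖ ≤ R → t ∈ Set.Icc 0 ‖H‖ →
      ((y + t • u, u) : E × E) ∈ Metric.closedBall (0 : E) (2 * R) ×ˢ Metric.closedBall (0 : E) 1 := by
    intro y t hy ht
    refine ⟨?_, ?_⟩
    · rw [mem_closedBall_zero_iff]
      have h1 := norm_add_le y (t • u)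
      rw [norm_smul, hu1, mul_one, Real.norm_eq_abs, abs_of_nonneg ht.1] at h1
      have h2 := ht.2
      show ‖y + t • u‖ ≤ 2 * R
      linarith
    · rw [mem_closedBall_zero_iff]
      exact hu1.le
  have hA : ∀ t ∈ Set.Icc 0 ‖H‖, ‖(fderiv ℝ f (x + t • u) u - fderiv ℝ f (x' + t • u) u) -
      (fderiv ℝ f x u - fderiv ℝ f x' u)‖ ≤ ε * ‖H‖ := by
    intro t ht
    have h1 := Convex.norm_image_sub_le_of_norm_hasDerivWithin_le
      (f := fun t : ℝ => fderiv ℝ f (x + t • u) u - fderiv ℝ f (x' + t • u) u)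
      (f' := fun t : ℝ => Q (x + t • u, u) - Q (x' + t • u, u)) (C := ε)
      (s := Set.Icc 0 ‖H‖) (fun z _ => ((hd2 x z).sub (hd2 x' z)).hasDerivWithinAt) (by
        intro z hz
        rw [← dist_eq_norm]
        refine hδ0 _ (hball x z hx hz) _ (hball x' z hx' hz) ?_
        rw [Prod.dist_eq, dist_self, dist_eq_norm]
        have e : x + z • u - (x' + z • u) = x - x' := by abel
        show max ‖x + z • u - (x' + z • u)‖ 0 ≤ δ
        rw [e]
        exact max_le hxx' hδ.le) hcv h0 ht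
    simp only [zero_smul, add_zero, sub_zero] at h1
    refine h1.trans (mul_le_mul_of_nonneg_left ?_ hε.le)
    rw [Real.norm_eq_abs, abs_of_nonneg ht.1]
    exact ht.2
  have hB := Convex.norm_image_sub_le_of_norm_hasDerivWithin_le
    (f := fun t : ℝ => f (x + t • u) - f (x' + t • u) - t * (fderiv ℝ f x u - fderiv ℝ f x' u))
    (f' := fun t : ℝ => fderiv ℝ f (x + t • u) u - fderiv ℝ f (x' + t • u) u -
      1 * (fderiv ℝ f x u - fderiv ℝ f x' u)) (C := ε * ‖H‖)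
    (s := Set.Icc 0 ‖H‖) (fun z _ => (((hd1 x z).sub (hd1 x' z)).sub
      ((hasDerivAt_id z).mul_const _)).hasDerivWithinAt) (by
      intro z hz
      rw [one_mul]
      exact hA z hz) hcv h0 hHm
  simp only [zero_smul, add_zero, sub_zero, zero_mul, hHu] at hB
  have e : rem f x (x + H) - rem f x' (x' + H) =
      f (x + H) - f (x' + H) - ‖H‖ * (fderiv ℝ f x u - fderiv ℝ f x' u) - (f x - f x') := by
    have e1 : fderiv ℝ f x H = ‖H‖ * fderiv ℝ f x u := by
      conv_lhs => rw [← hHu]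
      rw [map_smul, smul_eq_mul]
    have e2 : fderiv ℝ f x' H = ‖H‖ * fderiv ℝ f x' u := by
      conv_lhs => rw [← hHu]
      rw [map_smul, smul_eq_mul]
    rw [rem, rem, add_sub_cancel_left, add_sub_cancel_left, e1, e2]
    ring
  rw [e, ← Real.norm_eq_abs]
  refine hB.trans (le_of_eq ?_)
  rw [norm_norm]
  ring

end Pool.Agent.SLX
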