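import Pool.Agent.SLX.Defs

namespace Pool.Agent.SLX

/-- bound and Lipschitz constant of a `C¹` map on a ball -/
private theorem A2_c1 {E F : Type*} [NormedAddCommGroup E] [NormedSpace ℝ E]
    [FiniteDimensional ℝ E] [NormedAddCommGroup F] [NormedSpace ℝ F]
    (G : E → F) (hG : ContDiff ℝ 1 G) (R : ℝ) :
    ∃ C : ℝ, 0 ≤ C ∧ (∀ x : E, ‖x‖ ≤ R → ‖G x‖ ≤ C) ∧
      ∀ x y : E, ‖x‖ ≤ R → ‖y‖ ≤ R → ‖G y - G x‖ ≤ C * ‖y - x‖ := by
  have : ProperSpace E := FiniteDimensional.proper ℝ E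
  obtain ⟨C₁, hC₁⟩ := (isCompact_closedBall (0 : E) R).exists_bound_of_continuousOn
    hG.continuous.continuousOn
  obtain ⟨C₂, hC₂⟩ := (isCompact_closedBall (0 : E) R).exists_bound_of_continuousOn
    (hG.continuous_fderiv one_ne_zero).continuousOn
  refine ⟨max (max C₁ C₂) 0, le_max_right _ _, fun x hx => ?_, fun x y hx hy => ?_⟩
  · exact (hC₁ x (by simpa using hx)).trans ((le_max_left _ _).trans (le_max_left _ _))
  · refine Convex.norm_image_sub_le_of_norm_fderiv_le (𝕜 := ℝ) (s := Metric.closedBall (0 : E) R)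
      (fun z _ => (hG.differentiable one_ne_zero).differentiableAt) (fun z hz => ?_)
      (convex_closedBall 0 R) (by simpa using hx) (by simpa using hy)
    exact (hC₂ z hz).trans ((le_max_right _ _).trans (le_max_left _ _))

/-- **A2.** Quadratic bound of the Taylor remainder on balls. Proof. `G := fderiv ℝ f` is `C¹`, so
its derivative is bounded by some `C ≥ 0` on the compact convex ball of radius `R`, so
`‖G z - G x‖ ≤ C ‖z - x‖` there. On the segment from `x` to `X` (convex, inside the ball) the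
function `z ↦ f z - G x z` has derivative `G z - G x` of norm `≤ C ‖X - x‖`. -/
theorem taylor_bound {E : Type*} [NormedAddCommGroup E] [NormedSpace ℝ E] [FiniteDimensional ℝ E]
    (f : E → ℝ) (hf : ContDiff ℝ 2 f) (R : ℝ) :
    ∃ C : ℝ, 0 ≤ C ∧ ∀ x X : E, ‖x‖ ≤ R → ‖X‖ ≤ R → |rem f x X| ≤ C * ‖X - x‖ ^ 2 := by
  have hG : ContDiff ℝ 1 (fderiv ℝ f) := hf.fderiv_right (m := 1) (by norm_num)
  obtain ⟨C, hC0, -, hC⟩ := A2_c1 (fderiv ℝ f) hG R
  refine ⟨C, hC0, fun x X hx hX => ?_⟩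
  have hfd : ∀ z : E, HasFDerivAt (fun z => f z - fderiv ℝ f x z) (fderiv ℝ f z - fderiv ℝ f x) z :=
    fun z => ((hf.differentiable two_ne_zero).differentiableAt.hasFDerivAt).sub
      (fderiv ℝ f x).hasFDerivAt
  have h1 := Convex.norm_image_sub_le_of_norm_hasFDerivWithin_le (𝕜 := ℝ)
    (s := segment ℝ x X) (f := fun z => f z - fderiv ℝ f x z)
    (f' := fun z => fderiv ℝ f z - fderiv ℝ f x) (C := C * ‖X - x‖)
    (fun z _ => (hfd z).hasFDerivWithinAt) (fun z hz => by
      have hzR : ‖z‖ ≤ R := by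
        have := (convex_closedBall (0 : E) R).segment_subset (x := x) (y := X)
          (by simpa using hx) (by simpa using hX) hz
        simpa using this
      refine (hC x z hx hzR).trans (mul_le_mul_of_nonneg_left ?_ hC0)
      obtain ⟨a, b, ha, hb, hab, rfl⟩ := hz
      have h2 : a • x + b • X - x = b • (X - x) := by
        have : a = 1 - b := by linarith
        rw [this]
        module
      rw [h2, norm_smul, Real.norm_eq_abs, abs_of_nonneg hb]
      exact mul_le_of_le_one_left (norm_nonneg _) (by linarith))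
    (convex_segment x X) (left_mem_segment ℝ x X) (right_mem_segment ℝ x X)
  have h2 : rem f x X = (f X - fderiv ℝ f x X) - (f x - fderiv ℝ f x x) := by
    unfold rem
    rw [map_sub]
    ring
  rw [h2, ← Real.norm_eq_abs]
  refine h1.trans (le_of_eq ?_)
  ring

/-- **A2'.** The remainder is Lipschitz in both variables on balls. Proof. `f` and `fderiv ℝ f` are
`C¹`, hence Lipschitz and bounded on the ball of radius `R` (mean value inequality on the convex
compact ball); `fderiv ℝ f A (X - A) - fderiv ℝ f A' (X' - A')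
 = (fderiv ℝ f A - fderiv ℝ f A') (X - A) + fderiv ℝ f A' ((X - X') - (A - A'))`. -/
theorem rem_lip {E : Type*} [NormedAddCommGroup E] [NormedSpace ℝ E] [FiniteDimensional ℝ E]
    (f : E → ℝ) (hf : ContDiff ℝ 2 f) (R : ℝ) :
    ∃ C : ℝ, 0 ≤ C ∧ ∀ A A' X X' : E, ‖A‖ ≤ R → ‖A'‖ ≤ R → ‖X‖ ≤ R → ‖X'‖ ≤ R →
      |rem f A X - rem f A' X'| ≤ C * (‖A - A'‖ + ‖X - X'‖) := by
  have hG : ContDiff ℝ 1 (fderiv ℝ f) := hf.fderiv_right (m := 1) (by norm_num)
  obtain ⟨C, hC0, hCb, hC⟩ := A2_c1 (fderiv ℝ f) hG R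
  obtain ⟨M, hM0, -, hM⟩ := A2_c1 f (hf.of_le (by norm_num)) R
  refine ⟨M + C * (2 * |R|) + C, by positivity, fun A A' X X' hA hA' hX hX' => ?_⟩
  have e : rem f A X - rem f A' X' = (f X - f X') - (f A - f A') -
      (fderiv ℝ f A - fderiv ℝ f A') (X - A) -
      fderiv ℝ f A' ((X - X') - (A - A')) := by
    unfold rem
    simp only [map_sub, ContinuousLinearMap.sub_apply]
    ring
  have h1 : |f X - f X'| ≤ M * ‖X - X'‖ := hM X' X hX' hX
  have h2 : |f A - f A'| ≤ M * ‖A - A'‖ := hM A' A hA' hA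
  have hR : R ≤ |R| := le_abs_self R
  have h3 : |(fderiv ℝ f A - fderiv ℝ f A') (X - A)| ≤ (C * ‖A - A'‖) * (2 * |R|) := by
    refine ((fderiv ℝ f A - fderiv ℝ f A').le_opNorm (X - A)).trans ?_
    refine mul_le_mul (hC A' A hA' hA) ?_ (norm_nonneg _) (by positivity)
    refine (norm_sub_le _ _).trans ?_
    linarith
  have h4 : |fderiv ℝ f A' ((X - X') - (A - A'))| ≤ C * (‖X - X'‖ + ‖A - A'‖) := by
    refine ((fderiv ℝ f A').le_opNorm _).trans ?_
    exact mul_le_mul (hCb A' hA') (norm_sub_le _ _) (norm_nonneg _) hC0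
  rw [e]
  have h5 : |(f X - f X') - (f A - f A') - (fderiv ℝ f A - fderiv ℝ f A') (X - A) -
      fderiv ℝ f A' ((X - X') - (A - A'))| ≤ |f X - f X'| + |f A - f A'| +
      |(fderiv ℝ f A - fderiv ℝ f A') (X - A)| + |fderiv ℝ f A' ((X - X') - (A - A'))| :=
    (abs_sub _ _).trans (add_le_add_left ((abs_sub _ _).trans
      (add_le_add_left (abs_sub _ _) _)) _)
  refine h5.trans ?_
  have p1 : 0 ≤ C * (2 * |R|) * ‖X - X'‖ := by positivity
  nlinarith [h1, h2, h3, h4, p1]

end Pool.Agent.SLX
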