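import Pool.Agent.SLX.A1
import Pool.Agent.SLX.A2

namespace Pool.Agent.SLX

/-- difference of the values of a quadratic form -/
private theorem A3_bil {E W : Type*} [NormedAddCommGroup E] [NormedSpace ℝ E]
    [NormedAddCommGroup W] [NormedSpace ℝ W] (B : E →L[ℝ] E →L[ℝ] W) (K H : E) (R δ : ℝ)
    (hK : ‖K‖ ≤ R) (hH : ‖H‖ ≤ R) (hd : ‖K - H‖ ≤ δ) :
    ‖B K K - B H H‖ ≤ ‖B‖ * (2 * R) * δ := by
  have hR : 0 ≤ R := (norm_nonneg _).trans hK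
  have hδ : 0 ≤ δ := (norm_nonneg _).trans hd
  have e : B K K - B H H = B (K - H) K + B H (K - H) := by
    simp only [map_sub, sub_apply]
    abel
  rw [e]
  refine (norm_add_le _ _).trans ?_
  have h1 : ‖B (K - H) K‖ ≤ ‖B‖ * δ * R := by
    refine (B.le_opNorm₂ _ _).trans ?_
    gcongr
  have h2 : ‖B H (K - H)‖ ≤ ‖B‖ * R * δ := by
    refine (B.le_opNorm₂ _ _).trans ?_
    gcongr
  linarith

/-- **A3.** From bases on the compact set `S` to bases in a thin tube `T = S + closedBall 0 δ₁`.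
Proof. `S ⊆ closedBall 0 R₀`; put `R = R₀ + δ + 1` and more (all points below stay in a ball).
For `A ∈ T` choose `A₀ ∈ S` with `‖A - A₀‖ ≤ δ₁` and put `ζ' A := ζ A₀`. Let `X ∈ T`, `H = X - A`.
(near) `‖H‖ ≤ δ`: by `taylor_diff` with `ε = c / 4` (note `‖H‖ ^ 2 ≤ b H H`)
`rem f A (A + H) ≥ rem f A₀ (A₀ + H) - (c/4) ‖H‖²` and `A₀ + H` is within `δ` of `A₀ ∈ S`, so the
hypothesis applies with the base `A₀` and the point `A₀ + H`.
(far) `‖H‖ > δ`: with `X` (within `δ₁ ≤ δ` of `S`) and the base `A₀`: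
`ζ A₀ (B (X - A₀) (X - A₀)) + c b (X - A₀) (X - A₀) ≤ rem f A₀ X`; replacing `A₀` by `A` changes
every term by at most `C δ₁` (A2', boundedness of `B`, `b`, `ζ`), and `C δ₁ ≤ (c/2) δ² ≤ (c/2) b H H`
for `δ₁` small. -/
theorem tube {E V : Type*} [NormedAddCommGroup E] [NormedSpace ℝ E] [FiniteDimensional ℝ E]
    [NormedAddCommGroup V] [NormedSpace ℝ V]
    (B : E →L[ℝ] E →L[ℝ] V) (b : E →L[ℝ] E →L[ℝ] ℝ) (hb : ∀ X, ‖X‖ ^ 2 ≤ b X X)
    (f : E → ℝ) (hf : ContDiff ℝ 2 f) (S : Set E) (hS : IsCompact S)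
    (ζ : E → V →L[ℝ] ℝ) (Cζ : ℝ) (hζ : ∀ A ∈ S, ‖ζ A‖ ≤ Cζ)
    (c δ : ℝ) (hc : 0 < c) (hδ : 0 < δ)
    (H : ∀ A ∈ S, ∀ A₀ ∈ S, ∀ X, ‖X - A₀‖ ≤ δ →
      ζ A (B (X - A) (X - A)) + c * b (X - A) (X - A) ≤ rem f A X) :
    ∃ δ₁ : ℝ, 0 < δ₁ ∧ ∃ ζ' : E → V →L[ℝ] ℝ, (∀ A, ‖ζ' A‖ ≤ max Cζ 0) ∧
      ∀ A A₀ X X₀ : E, A₀ ∈ S → X₀ ∈ S → ‖A - A₀‖ ≤ δ₁ → ‖X - X₀‖ ≤ δ₁ →
      ζ' A (B (X - A) (X - A)) + c / 2 * b (X - A) (X - A) ≤ rem f A X := by
  classical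
  obtain ⟨R₀', hR₀'⟩ := hS.isBounded.exists_norm_le
  set R₀ : ℝ := max R₀' 0 with hR₀def
  have hR₀ : 0 ≤ R₀ := le_max_right _ _
  have hSR : ∀ A ∈ S, ‖A‖ ≤ R₀ := fun A hA => (hR₀' A hA).trans (le_max_left _ _)
  set R : ℝ := 2 * R₀ + 2 with hRdef
  have hR : 0 ≤ R := by positivity
  obtain ⟨δT, hδT, hT⟩ := taylor_diff f hf R (c / 4) (by positivity)
  obtain ⟨C, hC, hL⟩ := rem_lip f hf R
  set Z : ℝ := max Cζ 0 with hZdef
  have hZ : 0 ≤ Z := le_max_right _ _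
  set K₀ : ℝ := C + Z * (‖B‖ * (2 * R)) + c * (‖b‖ * (2 * R)) with hK₀def
  have hK₀ : 0 ≤ K₀ := by positivity
  set δ₁ : ℝ := min (min δT δ) (min 1 (c / 2 * δ ^ 2 / (K₀ + 1))) with hδ₁def
  have hδ₁ : 0 < δ₁ := by
    refine lt_min (lt_min hδT hδ) (lt_min one_pos (by positivity))
  have d1 : δ₁ ≤ δT := (min_le_left _ _).trans (min_le_left _ _)
  have d2 : δ₁ ≤ δ := (min_le_left _ _).trans (min_le_right _ _)
  have d3 : δ₁ ≤ 1 := (min_le_right _ _).trans (min_le_left _ _)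
  have d4 : K₀ * δ₁ ≤ c / 2 * δ ^ 2 := by
    have h1 : δ₁ ≤ c / 2 * δ ^ 2 / (K₀ + 1) := (min_le_right _ _).trans (min_le_right _ _)
    rw [le_div_iff₀ (by positivity)] at h1
    nlinarith
  refine ⟨δ₁, hδ₁, fun A => if h : ∃ A₀ ∈ S, ‖A - A₀‖ ≤ δ₁ then ζ h.choose else 0, ?_, ?_⟩
  · intro A
    by_cases h : ∃ A₀ ∈ S, ‖A - A₀‖ ≤ δ₁
    · beta_reduce
      rw [dif_pos h]
      exact (hζ _ h.choose_spec.1).trans (le_max_left _ _)
    · beta_reduce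
      rw [dif_neg h, norm_zero]
      exact hZ
  · intro A A₀ X X₀ hA₀ hX₀ hA hX
    have h : ∃ A₀ ∈ S, ‖A - A₀‖ ≤ δ₁ := ⟨A₀, hA₀, hA⟩
    beta_reduce
    rw [dif_pos h]
    have hA₁ := h.choose_spec.1
    have hAA₁ := h.choose_spec.2
    set A₁ := h.choose with hA₁def
    have nA₁ : ‖A₁‖ ≤ R₀ := hSR _ hA₁
    have nA : ‖A‖ ≤ R₀ + 1 := by
      have h1 : A = A₁ + (A - A₁) := by abel
      rw [h1]
      exact (norm_add_le _ _).trans (add_le_add nA₁ (hAA₁.trans d3))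
    have nX : ‖X‖ ≤ R₀ + 1 := by
      have h1 : X = X₀ + (X - X₀) := by abel
      rw [h1]
      exact (norm_add_le _ _).trans (add_le_add (hSR _ hX₀) (hX.trans d3))
    have nH : ‖X - A‖ ≤ R := (norm_sub_le _ _).trans (by linarith)
    have hbH := hb (X - A)
    have nbH : 0 ≤ ‖X - A‖ := norm_nonneg _
    rcases le_or_gt ‖X - A‖ δ with hn | hn
    · have h1 := hT A A₁ (X - A) (by linarith) (by linarith) nH (hAA₁.trans d1)
      have h2 := H A₁ hA₁ A₁ hA₁ (A₁ + (X - A)) (by simpa using hn)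
      have e1 : A + (X - A) = X := by abel
      have e2 : A₁ + (X - A) - A₁ = X - A := by abel
      rw [e1] at h1
      rw [e2] at h2
      have h3 := (abs_le.1 h1).1
      nlinarith
    · have h2 := H A₁ hA₁ X₀ hX₀ X (hX.trans d2)
      have nK : ‖X - A₁‖ ≤ R := (norm_sub_le _ _).trans (by linarith)
      have hKH : ‖(X - A₁) - (X - A)‖ ≤ δ₁ := by
        have e1 : (X - A₁) - (X - A) = A - A₁ := by abel
        rw [e1]
        exact hAA₁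
      have i1 := A3_bil B (X - A₁) (X - A) R δ₁ nK nH hKH
      have i2 := A3_bil b (X - A₁) (X - A) R δ₁ nK nH hKH
      have i3 := hL A A₁ X X (by linarith) (by linarith) (by linarith) (by linarith)
      rw [sub_self, norm_zero, add_zero] at i3
      have i4 : |ζ A₁ (B (X - A₁) (X - A₁)) - ζ A₁ (B (X - A) (X - A))| ≤
          Z * (‖B‖ * (2 * R) * δ₁) := by
        rw [← map_sub]
        refine ((ζ A₁).le_opNorm _).trans ?_
        exact mul_le_mul ((hζ A₁ hA₁).trans (le_max_left _ _)) i1 (norm_nonneg _) hZ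
      rw [Real.norm_eq_abs] at i2
      have j1 := (abs_le.1 i4).1
      have j2 := (abs_le.1 i2).1
      have j3 := (abs_le.1 i3).1
      have j4 : C * ‖A - A₁‖ ≤ C * δ₁ := mul_le_mul_of_nonneg_left hAA₁ hC
      have j5 : c * (-(‖b‖ * (2 * R) * δ₁)) ≤
          c * (b (X - A₁) (X - A₁) - b (X - A) (X - A)) :=
        mul_le_mul_of_nonneg_left j2 hc.le
      have j6 : K₀ * δ₁ = C * δ₁ + Z * (‖B‖ * (2 * R) * δ₁) + c * (‖b‖ * (2 * R) * δ₁) := by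
        rw [hK₀def]
        ring
      have j7 : δ ^ 2 ≤ b (X - A) (X - A) := by
        refine le_trans ?_ hbH
        exact pow_le_pow_left₀ hδ.le hn.le 2
      have j8 : c / 2 * δ ^ 2 ≤ c / 2 * b (X - A) (X - A) :=
        mul_le_mul_of_nonneg_left j7 (by positivity)
      nlinarith


end Pool.Agent.SLX
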