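import Mathlib

/-! Abstract extension theorem for `MP_73203d_an`: definitions. -/

namespace Pool.Agent.SLX

open MeasureTheory

/-- First order Taylor remainder of `f` at `A`, evaluated at `X`. -/
noncomputable def rem {E : Type*} [NormedAddCommGroup E] [NormedSpace ℝ E] (f : E → ℝ)
    (A X : E) : ℝ := f X - f A - fderiv ℝ f A (X - A)

/-- A bilinear map on a finite-dimensional space as a continuous bilinear map. -/
noncomputable def toCB {E V : Type*} [NormedAddCommGroup E] [NormedSpace ℝ E]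
    [FiniteDimensional ℝ E] [NormedAddCommGroup V] [NormedSpace ℝ V]
    (f : E →ₗ[ℝ] E →ₗ[ℝ] V) : E →L[ℝ] E →L[ℝ] V :=
  LinearMap.toContinuousLinearMap
    ((LinearMap.toContinuousLinearMap : (E →ₗ[ℝ] V) ≃ₗ[ℝ] (E →L[ℝ] V)).toLinearMap ∘ₗ f)

theorem toCB_apply {E V : Type*} [NormedAddCommGroup E] [NormedSpace ℝ E]
    [FiniteDimensional ℝ E] [NormedAddCommGroup V] [NormedSpace ℝ V]
    (f : E →ₗ[ℝ] E →ₗ[ℝ] V) (X Y : E) : toCB f X Y = f X Y := rfl

end Pool.Agent.SLX
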